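import Pool.Agent.helper70.FI4E.SpecK

set_option autoImplicit false

namespace Pool.Agent.FI4E

open Pool.Agent.helper58.DC Pool.Agent.DI Pool.Agent.GR Pool.Agent.OB Pool.Agent.DR Pool.Agent.FI Pool.Agent.FI3 Pool.Agent.FI4

/-- The congruence, for an arbitrary quotient map. -/
theorem DV4E_gen (hEOQ : EOQ_stmt) (hEUN : EUN_stmt) (hEDV : EDV_stmt) (hEQA : EQA_stmt)
    (hEAU : EAU_stmt) (hKDG : KDG_stmt) (hKG1 : KG1_stmt) (hKBL : KBL_stmt) (hIM : IM_stmt)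
    (p : ℕ) (M : Ideal (integralClosure ℤ ℂ)) (hM : Setup p M) (G Gb : Type)
    [Group G] [Finite G] [Group Gb] [Finite Gb] (D : Subgroup G) (x : G) (θ χ : G → ℂ)
    (hRt : Rt p M D x θ χ)
    (hht : ∀ ψ ∈ Blk M χ ⊤, ∀ a : ℕ, Nat.card D = p ^ a → Defect p ⊤ ψ a)
    (R : Subgroup G) (hR : IsOp p ⊤ R) (hRD : R ≤ D) (hne : R ≠ D) (π : G →* Gb)
    (hQ : Qn p R π) (α : MulAut G) (n : ℕ) (hn : 0 < n) (hαn : α ^ n = 1) (h3 : 3 < p)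
    (hsm : Sml p n) : ∃ m : ℤ, Om p M χ R α = (p : ℂ) * (Nat.card G : ℂ) * m := by
  have : Fact p.Prime := ⟨hM.pr⟩
  obtain ⟨-, hcG, -, -, -, -, -, hop⟩ := hKG1 p G Gb R π hQ
  have hαR : am α R = R := (hEAU p M G α).2.1 R hR
  obtain ⟨hex, hall⟩ := hEQA p G Gb R π hQ α
  obtain ⟨αb, hαb⟩ := hex hαR
  have hαbn : αb ^ n = 1 := (hall αb hαb).1 n hαn
  have hX : ∀ χ' ∈ {χ' : Gb → ℂ | χ' ∈ Irr Gb ∧ Induces M (fun g => χ' (π g)) χ},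
      ∀ χ'' ∈ Irr Gb, Induces M χ'' χ' →
      χ'' ∈ {χ' : Gb → ℂ | χ' ∈ Irr Gb ∧ Induces M (fun g => χ' (π g)) χ} :=
    fun χ' h1 χ'' h2 h3 => ⟨h2, (hIM G M _ _ _).2.2.1 ((hKBL p M hM G Gb R π hQ).1 χ'' χ' h3) h1.2⟩
  obtain ⟨m, hm⟩ := hEUN p M hM Gb
    {χ' : Gb → ℂ | χ' ∈ Irr Gb ∧ Induces M (fun g => χ' (π g)) χ} (fun _ h => h.1) hX αb
    ((p : ℤ) * Nat.card Gb) (fun χ' h1 hst => by
      obtain ⟨D', h4, h5⟩ := hKDG p M hM G Gb D x θ χ hRt hht R π hQ hRD hne χ' h1.1 h1.2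
      obtain ⟨m, hm⟩ := hEDV p M hM Gb (hop hR) χ' h1.1 D' h4 h5 αb hst n hn hαbn h3 hsm
      refine ⟨m, ?_⟩
      rw [hm]
      push_cast
      ring)
  refine ⟨m, ?_⟩
  rw [hEOQ p M hM G Gb R π hQ χ α αb hαb, hm, hcG]
  push_cast
  ring

theorem DV4E (hEOQ : EOQ_stmt) (hEUN : EUN_stmt) (hEDV : EDV_stmt) (hEQA : EQA_stmt) (hEAU : EAU_stmt) (hKDG : KDG_stmt) (hKG1 : KG1_stmt) (hKBL : KBL_stmt) (hIM : IM_stmt) : DV4E_stmt := by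
  intro p M hM G _ _ D x θ χ hRt hht R hR hRD hne α _ n hn hαn h3 hsm
  have hN : R.Normal := by
    constructor
    intro r hr g
    have h1 : g ∈ Subgroup.normalizer (R : Set G) := hR.1.2.2 (Subgroup.mem_top g)
    exact (Subgroup.mem_normalizer_iff.1 h1 r).1 hr
  have hQ : Qn p R (QuotientGroup.mk' R) :=
    { pg := hR.1.2.1
      com := fun a ha b hb => hRt.com a (hRD ha) b (hRD hb)
      sur := QuotientGroup.mk'_surjective R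
      ker := fun g => by
        rw [QuotientGroup.mk'_apply, QuotientGroup.eq_one_iff] }
  exact DV4E_gen hEOQ hEUN hEDV hEQA hEAU hKDG hKG1 hKBL hIM p M hM G (G ⧸ R) D x θ χ hRt hht R
    hR hRD hne (QuotientGroup.mk' R) hQ α n hn hαn h3 hsm

end Pool.Agent.FI4E
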